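import Pool.Agent.H811R3.PS.All

/-! Strong coincidence for almost all Pisot irreducible substitutions (unimodular or not): let `M`
be an irreducible Pisot matrix. Among the substitutions with incidence matrix `M ^ k` (all of them
are irreducible Pisot substitutions) the proportion of those which do not satisfy the combinatorial
strong coincidence condition is at most `exp (-exp (c k))`. -/

set_option autoImplicit false

open Filter Pool.Agent.H811R3.PS

namespace Pool.Agent.Results.MP_396664_co.AlmostAllStrongCoincidence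

theorem result (d : ℕ) (hd : 2 ≤ d) (M : Matrix (Fin d) (Fin d) ℤ) (lam : ℝ) (hM : Pis M lam) :
    (∀ k : ℕ, 1 ≤ k → Pis (M ^ k) (lam ^ k) ∧
      {σ : Fin d → List (Fin d) | inc σ = M ^ k}.Finite ∧
      {σ : Fin d → List (Fin d) | inc σ = M ^ k}.Nonempty) ∧
    ∃ c : ℝ, 0 < c ∧ ∀ᶠ k : ℕ in atTop,
      ({σ : Fin d → List (Fin d) | inc σ = M ^ k ∧ ¬ SCoin σ}.ncard : ℝ) ≤
        Real.exp (-(Real.exp (c * k))) *
          ({σ : Fin d → List (Fin d) | inc σ = M ^ k}.ncard : ℝ) := by
  refine ⟨fun k hk => ?_, mains_ d hd M lam hM⟩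
  have h := pk_holds d hd M lam hM k hk
  exact ⟨h, fn_holds d (M ^ k) h.nonneg⟩

end Pool.Agent.Results.MP_396664_co.AlmostAllStrongCoincidence
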