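import Pool.Agent.H812R2.PI.GFin

/-!
Strong coincidence for almost all substitutions with a given incidence matrix `M^n` and bounded
discrepancy.

Written by helper812 with helpers 880, 278, 399, 551, 504, 1, 152.
-/

namespace Pool.Agent.Results.MP_396664_co.GenericStrongCoincidence

open Pool.Agent.H812R2.PI

/-- The combinatorial strong coincidence condition of the problem. -/
def StrongCoincidence {d : ℕ} (σ : Fin d → List (Fin d)) : Prop :=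
  ∀ j₁ j₂ : Fin d, ∃ k : ℕ, 1 ≤ k ∧ ∃ (i : Fin d) (p₁ s₁ p₂ s₂ : List (Fin d)),
    iter σ k j₁ = p₁ ++ i :: s₁ ∧ iter σ k j₂ = p₂ ++ i :: s₂ ∧ ab p₁ = ab p₂

theorem aux {d : ℕ} {M : Matrix (Fin d) (Fin d) ℤ} (P : PD M) (n : ℕ) (hn : 1 ≤ n)
    (σ : Fin d → List (Fin d)) (hUC : (P.pow n hn).UC σ 0) : StrongCoincidence σ := by
  intro a b
  have h0 : (P.pow n hn).N (rv (0 : Fin d → ℤ)) ≤ 0 := by
    rw [rv_zero, N_zero]
  have hov : 0 < (P.pow n hn).OV (0, a) ((0 : Fin d → ℤ), b) := by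
    unfold PD.OV ovl
    rw [ht_zero]
    have ha := (P.pow n hn).ell_pos a
    have hb := (P.pow n hn).ell_pos b
    simp only [zero_add, max_self, sub_zero]
    exact lt_max_of_lt_right (lt_min ha hb)
  obtain ⟨e, he1, he2⟩ := hUC a b 0 h0 hov
  rw [Matrix.mulVec_zero] at he2
  rw [mem_edges] at he1 he2
  obtain ⟨k1, hk1, rfl⟩ := he1
  obtain ⟨k2, hk2, h2⟩ := he2
  have h3 : ab ((σ a).take k1) = ab ((σ b).take k2) := by
    have := congrArg Prod.fst h2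
    simpa using this
  have h4 : (σ a)[k1] = (σ b)[k2] := congrArg Prod.snd h2
  have hit : ∀ c, iter σ 1 c = σ c := by
    intro c
    rw [iter_succ, iter_zero]
    simp [ext]
  refine ⟨1, le_rfl, (σ a)[k1], (σ a).take k1, (σ a).drop (k1+1), (σ b).take k2,
    (σ b).drop (k2+1), ?_, ?_, h3⟩
  · rw [hit]
    conv_lhs => rw [← List.take_append_drop k1 (σ a)]
    rw [List.drop_eq_getElem_cons hk1]
  · rw [hit, h4]
    conv_lhs => rw [← List.take_append_drop k2 (σ b)]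
    rw [List.drop_eq_getElem_cons hk2]

theorem result {d : ℕ} (M : Matrix (Fin d) (Fin d) ℤ)
    (hnn : ∀ i j, 0 ≤ M i j) (hM : PisotMat M) (lam : ℝ) (hlam : 1 < lam)
    (u : Fin d → ℝ) (hu : ∀ i, ∑ j, (M i j : ℝ) * u j = lam * u i)
    (husum : ∑ i, u i = 1) :
    ∃ B₀ : ℝ, ∀ B ≥ B₀, ∃ c : ℝ, 0 < c ∧ ∃ n₀ : ℕ, ∀ n ≥ n₀,
      (SubSet u (M ^ n) B).Finite ∧ (SubSet u (M ^ n) B).Nonempty ∧
      ({σ | σ ∈ SubSet u (M ^ n) B ∧ ¬ StrongCoincidence σ}.ncard : ℝ) ≤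
        Real.exp (-(c * ∑ i, ∑ j, ((M ^ n) i j : ℝ))) * ((SubSet u (M ^ n) B).ncard : ℝ) := by
  obtain ⟨P, rfl, hPlam⟩ := exists_PD M hnn hM lam hlam u hu husum
  obtain ⟨B1, hB1⟩ := generic_UC M hnn P
  refine ⟨B1, fun B hB => ?_⟩
  obtain ⟨c, hc, n0, hn0, hgen⟩ := hB1 B hB 0
  refine ⟨c, hc, n0, fun n hn => ?_⟩
  have h1n : 1 ≤ n := le_trans hn0 hn
  obtain ⟨hfin, hne, hcard⟩ := hgen n hn h1n
  refine ⟨hfin, hne, le_trans ?_ hcard⟩
  have hsub : {σ | σ ∈ SubSet P.u (M ^ n) B ∧ ¬ StrongCoincidence σ} ⊆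
      {σ | σ ∈ SubSet P.u (M ^ n) B ∧ ¬ (P.pow n h1n).UC σ 0} := by
    intro σ hσ
    exact ⟨hσ.1, fun hUC => hσ.2 (aux P n h1n σ hUC)⟩
  exact_mod_cast Set.ncard_le_ncard hsub (hfin.subset fun σ h => h.1)

end Pool.Agent.Results.MP_396664_co.GenericStrongCoincidence
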